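import Mathlib

set_option autoImplicit false

open Complex Metric Set Filter Topology

namespace Pool.Agent.Results.MP_d61c0a_an.OnePointIdeal

/-- The complex Euclidean space `ℂ^n`. -/
abbrev E (n : ℕ) := EuclideanSpace ℂ (Fin n)

/-- The closed unit ball of `ℂ^n`. -/
abbrev CB (n : ℕ) := closedBall (0 : E n) 1

/-- A continuous function on the closed unit ball is holomorphic in the open unit ball. -/
def IsBallHol (n : ℕ) (f : C(CB n, ℂ)) : Prop :=
  ∃ F : E n → ℂ, DifferentiableOn ℂ F (ball 0 1) ∧ ∀ x : CB n, F x = f x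

theorem isBallHol_mul {n : ℕ} {f g : C(CB n, ℂ)} (hf : IsBallHol n f) (hg : IsBallHol n g) :
    IsBallHol n (f * g) := by
  obtain ⟨F, hF, hf⟩ := hf
  obtain ⟨G, hG, hg⟩ := hg
  exact ⟨fun x => F x * G x, hF.mul hG, fun x => by simp [hf, hg]⟩

theorem isBallHol_add {n : ℕ} {f g : C(CB n, ℂ)} (hf : IsBallHol n f) (hg : IsBallHol n g) :
    IsBallHol n (f + g) := by
  obtain ⟨F, hF, hf⟩ := hf
  obtain ⟨G, hG, hg⟩ := hg
  exact ⟨fun x => F x + G x, hF.add hG, fun x => by simp [hf, hg]⟩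

theorem isBallHol_algebraMap {n : ℕ} (r : ℂ) : IsBallHol n (algebraMap ℂ C(CB n, ℂ) r) :=
  ⟨fun _ => r, differentiableOn_const _, fun x => by simp⟩

/-- The ball algebra `A(B)` of the unit ball of `ℂ^n`: the continuous functions on the closed
unit ball which are holomorphic in the open unit ball, as a subalgebra of `C(closed ball, ℂ)`
(whose norm is the supremum norm). -/
def BallAlgebra (n : ℕ) : Subalgebra ℂ C(CB n, ℂ) where
  carrier := {f | IsBallHol n f}
  mul_mem' := isBallHol_mul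
  add_mem' := isBallHol_add
  algebraMap_mem' := isBallHol_algebraMap

noncomputable section

/-! ### Phragmén–Lindelöf -/

/-- the half plane `Re s > -1/2`. -/
def U : Set ℂ := {s | -1/2 < s.re}

lemma isOpen_U : IsOpen U := isOpen_lt continuous_const Complex.continuous_re

/-- exponential decay of every rate `< δ` on the positive real axis -/
def Dec (g : ℂ → ℂ) (δ : ℝ) : Prop :=
  ∀ ε : ℝ, 0 < ε → ∃ C : ℝ, ∀ x : ℝ, 0 ≤ x → ‖g x‖ ≤ C * Real.exp (-(δ - ε) * x)

lemma PL {g : ℂ → ℂ} (hd : DifferentiableOn ℂ g U) {M δ : ℝ}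
    (hM : ∀ s : ℂ, 0 ≤ s.re → ‖g s‖ ≤ M) (hdec : Dec g δ) (s : ℂ) (hs : 0 ≤ s.re) :
    ‖g s‖ ≤ M * Real.exp (-δ * s.re) := by
  have key : ∀ ε : ℝ, 0 < ε → ‖g s‖ ≤ M * Real.exp (-(δ - ε) * s.re) := by
    intro ε hε
    obtain ⟨C, hC⟩ := hdec ε hε
    have hM0 : 0 ≤ M := (norm_nonneg _).trans (hM 0 (by simp))
    have h := PhragmenLindelof.right_half_plane_of_bounded_on_real
      (f := fun s : ℂ => g s * cexp ((δ - ε : ℝ) * s)) (C := M) (z := s) ?_ ?_ ?_ ?_ hs
    · have h2 : ‖g s * cexp ((δ - ε : ℝ) * s)‖ = ‖g s‖ * Real.exp ((δ - ε) * s.re) := by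
        rw [norm_mul, Complex.norm_exp]; congr 2; simp
      have h3 : ‖g s‖ * Real.exp ((δ - ε) * s.re) ≤ M := by rw [← h2]; exact h
      have h4 : Real.exp (-(δ - ε) * s.re) = (Real.exp ((δ - ε) * s.re))⁻¹ := by
        rw [← Real.exp_neg]; ring_nf
      rw [h4, ← div_eq_mul_inv, le_div_iff₀ (Real.exp_pos _)]
      exact h3
    · apply DifferentiableOn.diffContOnCl
      have hcl : closure {z : ℂ | 0 < z.re} ⊆ U := by
        intro z hz
        have : closure {z : ℂ | 0 < z.re} ⊆ {z : ℂ | 0 ≤ z.re} :=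
          closure_minimal (fun z (hz : 0 < z.re) => (le_of_lt hz : 0 ≤ z.re))
            (isClosed_le continuous_const Complex.continuous_re)
        have := this hz
        simp only [Set.mem_ofPred_eq] at this
        simp only [U, Set.mem_ofPred_eq]
        linarith
      exact (hd.mono hcl).mul (by fun_prop)
    · refine ⟨1, by norm_num, |δ - ε|, ?_⟩
      apply Asymptotics.IsBigO.of_bound M
      rw [Filter.eventually_inf_principal]
      filter_upwards with z hz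
      rw [norm_mul, Complex.norm_exp, Real.norm_eq_abs, abs_of_pos (Real.exp_pos _)]
      apply mul_le_mul (hM z (le_of_lt hz)) _ (Real.exp_pos _).le hM0
      apply Real.exp_le_exp.mpr
      rw [Real.rpow_one]
      have : (((δ - ε : ℝ) : ℂ) * z).re = (δ - ε) * z.re := by simp
      rw [this]
      calc (δ - ε) * z.re ≤ |(δ - ε) * z.re| := le_abs_self _
        _ = |δ - ε| * |z.re| := abs_mul _ _
        _ ≤ |δ - ε| * ‖z‖ := by gcongr; exact Complex.abs_re_le_norm z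
    · refine ⟨C, ?_⟩
      simp only [Filter.eventually_map]
      filter_upwards [Filter.eventually_ge_atTop (0:ℝ)] with x hx
      rw [norm_mul, Complex.norm_exp]
      have : (((δ - ε : ℝ) : ℂ) * (x:ℂ)).re = (δ - ε) * x := by simp
      rw [this]
      calc ‖g x‖ * Real.exp ((δ - ε) * x)
          ≤ (C * Real.exp (-(δ - ε) * x)) * Real.exp ((δ - ε) * x) := by
            gcongr; exact hC x hx
        _ = C := by
            rw [mul_assoc, ← Real.exp_add]
            have : -(δ - ε) * x + (δ - ε) * x = 0 := by ring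
            rw [this]; simp
    · intro y
      rw [norm_mul, Complex.norm_exp]
      have : (((δ - ε : ℝ) : ℂ) * ((y:ℂ) * I)).re = 0 := by simp
      rw [this, Real.exp_zero, mul_one]
      exact hM _ (by simp)
  have hlim : Tendsto (fun ε : ℝ => M * Real.exp (-(δ - ε) * s.re)) (𝓝[>] 0)
      (𝓝 (M * Real.exp (-(δ - 0) * s.re))) := by
    apply Tendsto.mono_left _ nhdsWithin_le_nhds
    exact Continuous.tendsto (by fun_prop) 0
  have := ge_of_tendsto hlim (by
    filter_upwards [self_mem_nhdsWithin] with ε hε using key ε hε)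
  simpa using this

/-- differentiation under the integral sign -/
lemma diff_param {V : Set ℂ} (hV : IsOpen V) {g : ℂ → ℝ → ℂ}
    (hg : ∀ θ, DifferentiableOn ℂ (fun s => g s θ) V) (hc : ∀ s ∈ V, Continuous (g s)) {M : ℝ}
    (hM : ∀ s ∈ V, ∀ θ, ‖g s θ‖ ≤ M) :
    DifferentiableOn ℂ (fun s => ∫ θ in (0:ℝ)..(2 * Real.pi), g s θ) V := by
  intro s0 hs0
  apply DifferentiableAt.differentiableWithinAt
  obtain ⟨r, hr, hrV⟩ := Metric.isOpen_iff.mp hV s0 hs0
  have hsub : ∀ s ∈ ball s0 (r/2), closedBall s (r/4) ⊆ V := by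
    intro s hs z hz
    apply hrV
    rw [mem_ball] at hs ⊢
    rw [mem_closedBall] at hz
    calc dist z s0 ≤ dist z s + dist s s0 := dist_triangle _ _ _
      _ < r := by linarith
  have hd := intervalIntegral.hasDerivAt_integral_of_dominated_loc_of_deriv_le
    (μ := MeasureTheory.volume) (a := (0:ℝ)) (b := 2 * Real.pi)
    (F := g) (F' := fun s θ => deriv (fun s => g s θ) s) (x₀ := s0) (s := ball s0 (r/2))
    (bound := fun _ => M / (r/4)) (ball_mem_nhds _ (by positivity)) ?_ ?_ ?_ ?_ ?_ ?_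
  · exact hd.2.differentiableAt
  · filter_upwards [hV.mem_nhds hs0] with s hs
    exact (hc s hs).aestronglyMeasurable
  · exact (hc s0 hs0).intervalIntegrable _ _
  · -- measurability of the derivative
    have hlim : ∀ θ, Tendsto (fun n : ℕ => ((1 / (n + 1 : ℝ) : ℝ) : ℂ)⁻¹ *
        (g (s0 + ((1 / (n + 1 : ℝ) : ℝ) : ℂ) * (r/2 : ℝ)) θ - g s0 θ) * ((r/2 : ℝ) : ℂ)⁻¹) atTop
        (𝓝 (deriv (fun s => g s θ) s0)) := by
      intro θ
      have hda := ((hg θ).differentiableAt (hV.mem_nhds hs0)).hasDerivAt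
      have h1 := hasDerivAt_iff_tendsto_slope_zero.mp hda
      have h2 : Tendsto (fun n : ℕ => ((1 / (n + 1 : ℝ) : ℝ) : ℂ) * (r/2 : ℝ)) atTop (𝓝[≠] 0) := by
        rw [tendsto_nhdsWithin_iff]
        constructor
        · have : Tendsto (fun n : ℕ => ((1 / (n + 1 : ℝ) : ℝ) : ℂ)) atTop (𝓝 ((0:ℝ) : ℂ)) :=
            (Complex.continuous_ofReal.tendsto 0).comp tendsto_one_div_add_atTop_nhds_zero_nat
          simpa using this.mul_const ((r/2 : ℝ) : ℂ)
        · filter_upwards with n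
          simp only [mem_compl_iff, mem_singleton_iff]
          have h5 : ((1 / (n + 1 : ℝ) : ℝ) : ℂ) ≠ 0 := by
            rw [Complex.ofReal_ne_zero]; positivity
          have h6 : ((r/2 : ℝ) : ℂ) ≠ 0 := by
            rw [Complex.ofReal_ne_zero]; positivity
          exact mul_ne_zero h5 h6
      refine (h1.comp h2).congr ?_
      intro n
      simp only [Function.comp, smul_eq_mul, mul_inv]
      ring
    have hr2 : ∀ n : ℕ, s0 + ((1 / (n + 1 : ℝ) : ℝ) : ℂ) * (r/2 : ℝ) ∈ V := by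
      intro n
      apply hrV
      rw [mem_ball, dist_eq_norm, add_sub_cancel_left, norm_mul, Complex.norm_real,
        Complex.norm_real, Real.norm_eq_abs, Real.norm_eq_abs, abs_of_pos (by positivity),
        abs_of_pos (by positivity)]
      have : 1 / (n + 1 : ℝ) ≤ 1 := by
        rw [div_le_one (by positivity)]; linarith [(Nat.cast_nonneg n : (0:ℝ) ≤ n)]
      nlinarith
    apply aestronglyMeasurable_of_tendsto_ae atTop (f := fun (n : ℕ) θ =>
      ((1 / (n + 1 : ℝ) : ℝ) : ℂ)⁻¹ *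
        (g (s0 + ((1 / (n + 1 : ℝ) : ℝ) : ℂ) * (r/2 : ℝ)) θ - g s0 θ) * ((r/2 : ℝ) : ℂ)⁻¹)
    · intro n
      apply Continuous.aestronglyMeasurable
      have := hc _ (hr2 n)
      have := hc _ hs0
      fun_prop
    · filter_upwards with θ using hlim θ
  · filter_upwards with θ _ s hs
    apply Complex.norm_deriv_le_of_forall_mem_sphere_norm_le (by positivity)
    · apply DifferentiableOn.diffContOnCl
      apply (hg θ).mono
      exact closure_ball_subset_closedBall.trans (hsub s hs)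
    · intro z hz
      exact hM z (hsub s hs (sphere_subset_closedBall hz)) θ
  · exact intervalIntegrable_const
  · filter_upwards with θ _ s hs
    exact ((hg θ).differentiableAt (hV.mem_nhds (hsub s hs (mem_closedBall_self (by positivity))))).hasDerivAt

/-! ### Coordinates on a two dimensional slice of the ball -/

variable {n : ℕ}

/-- the point with first coordinate `s/(s+2)` and second coordinate `2v/(s+2)`. -/
def P (i0 i1 : Fin n) (s v : ℂ) : E n :=
  (s / (s + 2)) • EuclideanSpace.single i0 (1:ℂ) + (2 / (s + 2) * v) • EuclideanSpace.single i1 (1:ℂ)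

lemma P_zero_coord {i0 i1 : Fin n} (h : i0 ≠ i1) (s v : ℂ) : (P i0 i1 s v) i0 = s / (s + 2) := by
  simp [P, h]

lemma P_one_coord {i0 i1 : Fin n} (h : i0 ≠ i1) (s v : ℂ) : (P i0 i1 s v) i1 = 2 / (s + 2) * v := by
  simp [P, h.symm]

lemma norm_comb {i0 i1 : Fin n} (h : i0 ≠ i1) (a b : ℂ) :
    ‖a • EuclideanSpace.single i0 (1:ℂ) + b • EuclideanSpace.single i1 (1:ℂ)‖ ^ 2
      = ‖a‖ ^ 2 + ‖b‖ ^ 2 := by
  have horth : inner ℂ (a • EuclideanSpace.single i0 (1:ℂ)) (b • EuclideanSpace.single i1 (1:ℂ))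
      = (0:ℂ) := by
    rw [inner_smul_left, inner_smul_right, EuclideanSpace.inner_single_left]
    simp [h]
  have := norm_add_sq_eq_norm_sq_add_norm_sq_of_inner_eq_zero _ _ horth
  rw [norm_smul, norm_smul] at this
  simp at this
  nlinarith [this]

lemma s_add_two_ne {s : ℂ} (hs : s ∈ U) : s + 2 ≠ 0 := by
  intro h
  have : (s + 2).re = 0 := by rw [h]; simp
  simp only [U, Set.mem_ofPred_eq] at hs
  simp at this
  linarith

lemma P_mem {i0 i1 : Fin n} (h : i0 ≠ i1) {s v : ℂ} (hs : s ∈ U) (hv : ‖v‖ < 1/2) :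
    P i0 i1 s v ∈ ball (0 : E n) 1 := by
  rw [mem_ball_zero_iff]
  have h1 : ‖P i0 i1 s v‖ ^ 2 < 1 := by
    rw [P, norm_comb h, norm_div, norm_mul, norm_div, div_pow, mul_pow, div_pow]
    have h2 : 0 < ‖s + 2‖ := norm_pos_iff.mpr (s_add_two_ne hs)
    have h3 : ‖s + 2‖ ^ 2 = ‖s‖ ^ 2 + 4 * s.re + 4 := by
      rw [Complex.sq_norm, Complex.sq_norm, Complex.normSq_apply, Complex.normSq_apply]
      simp; ring
    have h4 : ‖(2:ℂ)‖ = 2 := by simp
    rw [h4]
    have h5 : ‖s‖ ^ 2 / ‖s + 2‖ ^ 2 + 2 ^ 2 / ‖s + 2‖ ^ 2 * ‖v‖ ^ 2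
        = (‖s‖ ^ 2 + 4 * ‖v‖ ^ 2) / ‖s + 2‖ ^ 2 := by ring
    rw [h5, div_lt_one (by positivity), h3]
    simp only [U, Set.mem_ofPred_eq] at hs
    nlinarith [norm_nonneg v]
  nlinarith [norm_nonneg (P i0 i1 s v)]

/-- a function of the ball algebra, extended by zero -/
def ev (f : BallAlgebra n) (x : E n) : ℂ :=
  open Classical in if hx : x ∈ closedBall (0 : E n) 1 then f.1 ⟨x, hx⟩ else 0

lemma ev_add (f g : BallAlgebra n) (x : E n) : ev (f + g) x = ev f x + ev g x := by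
  unfold ev; split_ifs <;> simp

lemma ev_sub (f g : BallAlgebra n) (x : E n) : ev (f - g) x = ev f x - ev g x := by
  unfold ev; split_ifs <;> simp

lemma ev_mul (f g : BallAlgebra n) (x : E n) : ev (f * g) x = ev f x * ev g x := by
  unfold ev; split_ifs <;> simp

lemma ev_zero (x : E n) : ev (0 : BallAlgebra n) x = 0 := by
  unfold ev; split_ifs <;> simp

lemma ev_norm (f : BallAlgebra n) (x : E n) : ‖ev f x‖ ≤ ‖f‖ := by
  unfold ev
  split_ifs with h
  · exact ContinuousMap.norm_coe_le_norm f.1 _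
  · rw [norm_zero]; exact norm_nonneg (f.1 : C(closedBall (0 : E n) 1, ℂ))

lemma ev_diff (f : BallAlgebra n) : DifferentiableOn ℂ (ev f) (ball 0 1) := by
  obtain ⟨F, hF, hf⟩ := f.2
  apply hF.congr
  intro x hx
  have hx' : x ∈ closedBall (0 : E n) 1 := ball_subset_closedBall hx
  unfold ev
  rw [dif_pos hx']
  exact (hf ⟨x, hx'⟩).symm

lemma diff_v {i0 i1 : Fin n} (h : i0 ≠ i1) (f : BallAlgebra n) {s : ℂ} (hs : s ∈ U) :
    DifferentiableOn ℂ (fun v => ev f (P i0 i1 s v)) (ball 0 (1/2)) := by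
  apply (ev_diff f).comp (t := ball 0 1)
  · unfold P; fun_prop
  · intro v hv
    exact P_mem h hs (by simpa using hv)

lemma diff_s {i0 i1 : Fin n} (h : i0 ≠ i1) (f : BallAlgebra n) {v : ℂ} (hv : ‖v‖ < 1/2) :
    DifferentiableOn ℂ (fun s => ev f (P i0 i1 s v)) U := by
  apply (ev_diff f).comp (t := ball 0 1)
  · unfold P
    intro s hs
    have := s_add_two_ne hs
    apply DifferentiableAt.differentiableWithinAt
    fun_prop (disch := assumption)
  · intro s hs
    exact P_mem h hs hv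

/-- the (unnormalised) Taylor coefficient in the transversal direction -/
def D (i0 i1 : Fin n) (j : ℕ) (f : BallAlgebra n) (s : ℂ) : ℂ :=
  iteratedDeriv j (fun v => ev f (P i0 i1 s v)) 0

lemma contDiffAt_v {i0 i1 : Fin n} (h : i0 ≠ i1) (f : BallAlgebra n) {s : ℂ} (hs : s ∈ U) (j : ℕ) :
    ContDiffAt ℂ j (fun v => ev f (P i0 i1 s v)) 0 :=
  ((diff_v h f hs).analyticAt (ball_mem_nhds _ (by norm_num))).contDiffAt

lemma D_add {i0 i1 : Fin n} (h : i0 ≠ i1) (j : ℕ) (f g : BallAlgebra n) {s : ℂ} (hs : s ∈ U) :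
    D i0 i1 j (f + g) s = D i0 i1 j f s + D i0 i1 j g s := by
  unfold D
  simp only [ev_add]
  exact iteratedDeriv_fun_add (contDiffAt_v h f hs j) (contDiffAt_v h g hs j)

lemma D_sub {i0 i1 : Fin n} (h : i0 ≠ i1) (j : ℕ) (f g : BallAlgebra n) {s : ℂ} (hs : s ∈ U) :
    D i0 i1 j (f - g) s = D i0 i1 j f s - D i0 i1 j g s := by
  unfold D
  simp only [ev_sub]
  exact iteratedDeriv_fun_sub (contDiffAt_v h f hs j) (contDiffAt_v h g hs j)

lemma D_mul {i0 i1 : Fin n} (h : i0 ≠ i1) (j : ℕ) (f g : BallAlgebra n) {s : ℂ} (hs : s ∈ U) :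
    D i0 i1 j (f * g) s = ∑ i ∈ Finset.range (j + 1),
      (j.choose i : ℂ) * D i0 i1 i f s * D i0 i1 (j - i) g s := by
  unfold D
  simp only [ev_mul]
  exact iteratedDeriv_fun_mul (contDiffAt_v h f hs j) (contDiffAt_v h g hs j)

lemma D_zero {i0 i1 : Fin n} (j : ℕ) (s : ℂ) : D i0 i1 j (0 : BallAlgebra n) s = 0 := by
  unfold D
  simp only [ev_zero]
  simp

lemma D_bound {i0 i1 : Fin n} (h : i0 ≠ i1) (j : ℕ) (f : BallAlgebra n) {s : ℂ} (hs : s ∈ U)
    {M : ℝ} (hM : ∀ x, ‖ev f x‖ ≤ M) :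
    ‖D i0 i1 j f s‖ ≤ (j.factorial * 4 ^ j : ℝ) * M := by
  have hd : DiffContOnCl ℂ (fun v => ev f (P i0 i1 s v)) (ball 0 (1/4)) := by
    apply DifferentiableOn.diffContOnCl
    apply (diff_v h f hs).mono
    rw [closure_ball _ (by norm_num)]
    exact closedBall_subset_ball (by norm_num)
  have := Complex.norm_iteratedDeriv_le_of_forall_mem_sphere_norm_le j (by norm_num) hd
    (fun z _ => hM _)
  unfold D
  refine this.trans (le_of_eq ?_)
  rw [div_pow, one_pow]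
  field_simp

lemma D_diff {i0 i1 : Fin n} (h : i0 ≠ i1) (j : ℕ) (f : BallAlgebra n) :
    DifferentiableOn ℂ (D i0 i1 j f) U := by
  have hform : ∀ s ∈ U, D i0 i1 j f s = (2 * Real.pi * I / j.factorial)⁻¹ *
      ∫ θ in (0:ℝ)..(2 * Real.pi), deriv (circleMap 0 (1/4)) θ •
        ((1 / (circleMap 0 (1/4) θ - 0) ^ (j + 1)) • ev f (P i0 i1 s (circleMap 0 (1/4) θ))) := by
    intro s hs
    have hd : DiffContOnCl ℂ (fun v => ev f (P i0 i1 s v)) (ball 0 (1/4)) := by
      apply DifferentiableOn.diffContOnCl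
      apply (diff_v h f hs).mono
      rw [closure_ball _ (by norm_num)]
      exact closedBall_subset_ball (by norm_num)
    have h1 := hd.circleIntegral_one_div_sub_center_pow_smul (by norm_num) j
    rw [circleIntegral] at h1
    rw [h1, smul_eq_mul, ← mul_assoc, inv_mul_cancel₀, one_mul]
    · rfl
    · have : (j.factorial : ℂ) ≠ 0 := by exact_mod_cast j.factorial_ne_zero
      exact div_ne_zero Complex.two_pi_I_ne_zero this
  apply DifferentiableOn.congr _ hform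
  apply DifferentiableOn.const_mul
  have hnorm : ∀ θ : ℝ, ‖circleMap (0:ℂ) (1/4) θ‖ = 1/4 := by
    intro θ; simp
  have hne : ∀ θ : ℝ, circleMap (0:ℂ) (1/4) θ ≠ 0 := by
    intro θ hθ
    have := hnorm θ
    rw [hθ] at this
    norm_num at this
  obtain ⟨M, hM⟩ : ∃ M : ℝ, ∀ x, ‖ev f x‖ ≤ M := ⟨‖f‖, ev_norm f⟩
  apply diff_param isOpen_U (M := (1/4) * ((4:ℝ) ^ (j+1) * M))
  · intro θ
    have hds := diff_s h f (v := circleMap 0 (1/4) θ) (by rw [hnorm]; norm_num)
    have h3 := (hds.const_mul (1 / (circleMap 0 (1/4) θ - 0) ^ (j + 1))).const_mul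
      (deriv (circleMap 0 (1/4)) θ)
    exact h3
  · intro s hs
    have hcirc : Continuous (circleMap (0:ℂ) (1/4)) := continuous_circleMap _ _
    have h1 : Continuous fun θ : ℝ => ev f (P i0 i1 s (circleMap 0 (1/4) θ)) := by
      apply (diff_v h f hs).continuousOn.comp_continuous hcirc
      intro θ
      rw [mem_ball_zero_iff, hnorm]; norm_num
    have h2 : Continuous (deriv (circleMap (0:ℂ) (1/4))) := by
      have : deriv (circleMap (0:ℂ) (1/4)) = fun θ => circleMap 0 (1/4) θ * I := by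
        ext θ; simp
      rw [this]
      fun_prop
    have h3 : Continuous fun θ : ℝ => 1 / (circleMap (0:ℂ) (1/4) θ - 0) ^ (j + 1) := by
      apply Continuous.div continuous_const (by fun_prop)
      intro θ
      rw [sub_zero]
      exact pow_ne_zero _ (hne θ)
    exact h2.smul (h3.smul h1)
  · intro s hs θ
    rw [norm_smul, norm_smul, deriv_circleMap, norm_mul, hnorm, norm_I, mul_one, norm_div,
      norm_one, norm_pow, sub_zero, hnorm]
    have : (1:ℝ) / (1/4) ^ (j+1) = 4 ^ (j+1) := by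
      rw [div_pow, one_pow]; field_simp
    rw [this]
    gcongr
    exact hM _

/-! ### Calculus of `Dec` -/

lemma Dec.congr {g g' : ℂ → ℂ} {δ : ℝ} (hg : Dec g δ) (h : ∀ x : ℝ, 0 ≤ x → g' x = g x) :
    Dec g' δ := by
  intro ε hε
  obtain ⟨C, hC⟩ := hg ε hε
  exact ⟨C, fun x hx => by rw [h x hx]; exact hC x hx⟩

lemma Dec.add {g g' : ℂ → ℂ} {δ : ℝ} (hg : Dec g δ) (hg' : Dec g' δ) :
    Dec (fun s => g s + g' s) δ := by
  intro ε hε
  obtain ⟨C, hC⟩ := hg ε hε
  obtain ⟨C', hC'⟩ := hg' ε hε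
  refine ⟨C + C', fun x hx => ?_⟩
  calc ‖g x + g' x‖ ≤ ‖g x‖ + ‖g' x‖ := norm_add_le _ _
    _ ≤ C * Real.exp (-(δ - ε) * x) + C' * Real.exp (-(δ - ε) * x) := add_le_add (hC x hx) (hC' x hx)
    _ = _ := by ring

lemma Dec.zero (δ : ℝ) : Dec (fun _ => 0) δ := by
  intro ε _
  exact ⟨0, fun x _ => by simp⟩

lemma Dec.sum {ι : Type*} (S : Finset ι) {g : ι → ℂ → ℂ} {δ : ℝ} (hg : ∀ i ∈ S, Dec (g i) δ) :
    Dec (fun s => ∑ i ∈ S, g i s) δ := by
  classical
  induction S using Finset.induction_on with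
  | empty => simpa using Dec.zero δ
  | insert a S ha ih =>
    have h1 := (hg a (by simp)).add (ih (fun i hi => hg i (by simp [hi])))
    refine h1.congr (fun x _ => ?_)
    rw [Finset.sum_insert ha]

lemma Dec.bdd_mul {g b : ℂ → ℂ} {δ M : ℝ} (hb : ∀ x : ℝ, 0 ≤ x → ‖b x‖ ≤ M) (hg : Dec g δ) :
    Dec (fun s => b s * g s) δ := by
  intro ε hε
  obtain ⟨C, hC⟩ := hg ε hε
  have hM : 0 ≤ M := (norm_nonneg _).trans (hb 0 le_rfl)
  refine ⟨M * C, fun x hx => ?_⟩
  rw [norm_mul, mul_assoc]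
  exact mul_le_mul (hb x hx) (hC x hx) (norm_nonneg _) hM

lemma Dec.mono {g : ℂ → ℂ} {δ δ' : ℝ} (h : δ' ≤ δ) (hg : Dec g δ) : Dec g δ' := by
  intro ε hε
  obtain ⟨C, hC⟩ := hg ε hε
  have hC0 : 0 ≤ C := by
    have := (norm_nonneg _).trans (hC 0 le_rfl)
    simpa using this
  refine ⟨C, fun x hx => (hC x hx).trans ?_⟩
  gcongr

lemma Dec.exp_mul {g : ℂ → ℂ} {a : ℝ} (b : ℝ) (hg : Dec g a) :
    Dec (fun s => cexp (b * s) * g s) (a - b) := by
  intro ε hε
  obtain ⟨C, hC⟩ := hg ε hε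
  refine ⟨C, fun x hx => ?_⟩
  rw [norm_mul, Complex.norm_exp]
  have h1 : ((b:ℂ) * (x:ℂ)).re = b * x := by simp
  rw [h1]
  calc Real.exp (b * x) * ‖g x‖ ≤ Real.exp (b * x) * (C * Real.exp (-(a - ε) * x)) := by
        gcongr; exact hC x hx
    _ = C * (Real.exp (b * x) * Real.exp (-(a - ε) * x)) := by ring
    _ = C * Real.exp (-(a - b - ε) * x) := by rw [← Real.exp_add]; ring_nf

lemma Dec.of_mul {g : ℂ → ℂ} {δ : ℝ} (hg : Dec (fun s => g s * (2 / (s + 2))) δ) : Dec g δ := by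
  intro ε hε
  obtain ⟨C, hC⟩ := hg (ε/2) (by positivity)
  have hC0 : 0 ≤ C := by
    have := (norm_nonneg _).trans (hC 0 le_rfl)
    simpa using this
  set K : ℝ := max 1 (1/ε)
  have hK1 : 1 ≤ K := le_max_left _ _
  have hK2 : 1 ≤ K * ε := by
    have : 1/ε ≤ K := le_max_right _ _
    rwa [div_le_iff₀ hε] at this
  refine ⟨C * K, fun x hx => ?_⟩
  have h1 : ‖g x‖ = ‖g x * (2 / ((x:ℂ) + 2))‖ * (1 + x/2) := by
    rw [norm_mul, norm_div]
    have h2 : ‖(x:ℂ) + 2‖ = x + 2 := by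
      have : (x:ℂ) + 2 = ((x + 2 : ℝ) : ℂ) := by push_cast; ring
      rw [this, Complex.norm_real, Real.norm_eq_abs, abs_of_nonneg (by linarith)]
    have h3 : ‖(2:ℂ)‖ = 2 := by simp
    rw [h2, h3]
    have : x + 2 ≠ 0 := by linarith
    field_simp
    ring
  have h2 : 1 + x/2 ≤ K * Real.exp (ε/2 * x) := by
    have := Real.add_one_le_exp (ε/2 * x)
    nlinarith [mul_nonneg (sub_nonneg.mpr hK1) (by positivity : 0 ≤ ε/2*x)]
  rw [h1]
  calc ‖g x * (2 / ((x:ℂ) + 2))‖ * (1 + x/2)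
      ≤ (C * Real.exp (-(δ - ε/2) * x)) * (K * Real.exp (ε/2 * x)) :=
        mul_le_mul (hC x hx) h2 (by positivity) (by positivity)
    _ = C * K * (Real.exp (-(δ - ε/2) * x) * Real.exp (ε/2 * x)) := by ring
    _ = C * K * Real.exp (-(δ - ε) * x) := by rw [← Real.exp_add]; ring_nf

lemma Dec.of_mul_pow {g : ℂ → ℂ} {δ : ℝ} (k : ℕ)
    (hg : Dec (fun s => g s * (2 / (s + 2)) ^ k) δ) : Dec g δ := by
  induction k with
  | zero => simpa using hg
  | succ k ih =>
    apply ih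
    apply Dec.of_mul
    refine hg.congr (fun x _ => ?_)
    rw [pow_succ]; ring

lemma not_dec_one {δ : ℝ} (hδ : 0 < δ) : ¬ Dec (fun _ => 1) δ := by
  intro h
  obtain ⟨C, hC⟩ := h (δ/2) (by positivity)
  have h1 : Tendsto (fun x : ℝ => C * Real.exp (-(δ - δ/2) * x)) atTop (𝓝 (C * 0)) := by
    apply Tendsto.const_mul
    apply Real.tendsto_exp_atBot.comp
    exact tendsto_id.const_mul_atTop_of_neg (by linarith)
  have h2 : (1:ℝ) ≤ C * 0 := by
    apply ge_of_tendsto h1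
    filter_upwards [Filter.eventually_ge_atTop (0:ℝ)] with x hx
    simpa using hC x hx
  norm_num at h2

/-! ### The decay rates and the ideal -/

/-- the decay rates -/
def γ (j : ℕ) : ℝ := 1 / (j + 1)

lemma γ_pos (j : ℕ) : 0 < γ j := by unfold γ; positivity

lemma γ_anti {i j : ℕ} (h : i ≤ j) : γ j ≤ γ i := by
  unfold γ
  gcongr

lemma γ_gap {i j N : ℕ} (h : i < j) (hj : j < N) : 1 / ((N:ℝ) + 1) ^ 2 ≤ γ i - γ j := by
  unfold γ
  have h1 : (i:ℝ) + 1 ≤ j := by exact_mod_cast h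
  have h2 : (j:ℝ) + 1 ≤ N := by exact_mod_cast hj
  have hi : (0:ℝ) ≤ i := Nat.cast_nonneg i
  rw [div_sub_div _ _ (by positivity) (by positivity), div_le_div_iff₀ (by positivity) (by positivity)]
  nlinarith [mul_nonneg hi hi, mul_nonneg hi (sub_nonneg.mpr h1), mul_nonneg (sub_nonneg.mpr h1) (sub_nonneg.mpr h2)]

lemma real_mem_U {x : ℝ} (hx : 0 ≤ x) : (x:ℂ) ∈ U := by
  simp only [U, Set.mem_ofPred_eq, Complex.ofReal_re]
  linarith

lemma mem_U {s : ℂ} (hs : 0 ≤ s.re) : s ∈ U := by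
  simp only [U, Set.mem_ofPred_eq]
  linarith

/-- The ideal. -/
def J {i0 i1 : Fin n} (h : i0 ≠ i1) : Ideal (BallAlgebra n) where
  carrier := {f | ∀ j, Dec (D i0 i1 j f) (γ j)}
  add_mem' := by
    intro f g hf hg j
    exact ((hf j).add (hg j)).congr (fun x hx => D_add h j f g (real_mem_U hx))
  zero_mem' := by
    intro j
    exact (Dec.zero _).congr (fun x _ => D_zero j x)
  smul_mem' := by
    intro g f hf j
    have h1 : Dec (fun s => ∑ i ∈ Finset.range (j + 1),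
        ((j.choose i : ℂ) * D i0 i1 i g s) * D i0 i1 (j - i) f s) (γ j) := by
      apply Dec.sum
      intro i hi
      obtain ⟨M, hM⟩ : ∃ M : ℝ, ∀ x, ‖ev g x‖ ≤ M := ⟨‖g‖, ev_norm g⟩
      apply Dec.bdd_mul (M := (j.choose i : ℝ) * ((i.factorial * 4 ^ i : ℝ) * M))
      · intro x hx
        rw [norm_mul]
        gcongr
        · simp
        · exact D_bound h i g (real_mem_U hx) hM
      · exact (hf (j - i)).mono (γ_anti (Nat.sub_le _ _))
    refine h1.congr (fun x hx => ?_)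
    rw [smul_eq_mul, D_mul h j g f (real_mem_U hx)]

lemma mem_J {i0 i1 : Fin n} (h : i0 ≠ i1) (f : BallAlgebra n) :
    f ∈ J h ↔ ∀ j, Dec (D i0 i1 j f) (γ j) := Iff.rfl

lemma J_bound {i0 i1 : Fin n} (h : i0 ≠ i1) {f : BallAlgebra n} (hf : f ∈ J h) (j : ℕ)
    {M : ℝ} (hM : ∀ x, ‖ev f x‖ ≤ M) {s : ℂ} (hs : 0 ≤ s.re) :
    ‖D i0 i1 j f s‖ ≤ ((j.factorial * 4 ^ j : ℝ) * M) * Real.exp (-γ j * s.re) :=
  PL (D_diff h j f) (fun s hs => D_bound h j f (mem_U hs) hM) (hf j) s hs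

lemma closure_bound {A : Type*} [SeminormedAddCommGroup A] {Λ : A → ℂ}
    (hsub : ∀ f g, Λ (f - g) = Λ f - Λ g) {C : ℝ} (hC : ∀ f, ‖Λ f‖ ≤ C * ‖f‖) {K : ℝ} {S : Set A}
    (hS : ∀ f ∈ S, ‖Λ f‖ ≤ K * ‖f‖) {f : A} (hf : f ∈ closure S) : ‖Λ f‖ ≤ K * ‖f‖ := by
  have hcont : Continuous Λ := by
    have hL : LipschitzWith (Real.toNNReal (|C|)) Λ := by
      apply LipschitzWith.of_dist_le_mul
      intro x y
      rw [dist_eq_norm, dist_eq_norm, ← hsub, Real.coe_toNNReal _ (abs_nonneg _)]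
      calc ‖Λ (x - y)‖ ≤ C * ‖x - y‖ := hC _
        _ ≤ |C| * ‖x - y‖ := by gcongr; exact le_abs_self C
    exact hL.continuous
  have hcl : IsClosed {f : A | ‖Λ f‖ ≤ K * ‖f‖} :=
    isClosed_le hcont.norm (continuous_const.mul continuous_norm)
  exact closure_minimal hS hcl hf

lemma closure_bound' {Λ : BallAlgebra n → ℂ}
    (hsub : ∀ f g : BallAlgebra n, Λ (f - g) = Λ f - Λ g) {C : ℝ}
    (hC : ∀ f : BallAlgebra n, ‖Λ f‖ ≤ C * ‖f‖) {K : ℝ} {S : Set (BallAlgebra n)}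
    (hS : ∀ f ∈ S, ‖Λ f‖ ≤ K * ‖f‖) {f : BallAlgebra n} (hf : f ∈ closure S) :
    ‖Λ f‖ ≤ K * ‖f‖ :=
  closure_bound hsub hC hS hf

lemma J_closed {i0 i1 : Fin n} (h : i0 ≠ i1) : IsClosed (J h : Set (BallAlgebra n)) := by
  apply isClosed_of_closure_subset
  intro f hf j ε hε
  refine ⟨(j.factorial * 4 ^ j : ℝ) * ‖f‖, fun x hx => ?_⟩
  have h1 := closure_bound (Λ := fun f : BallAlgebra n => D i0 i1 j f x)
    (fun f g => D_sub h j f g (real_mem_U hx)) (C := (j.factorial * 4 ^ j : ℝ))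
    (fun f => D_bound h j f (real_mem_U hx) (ev_norm f))
    (K := (j.factorial * 4 ^ j : ℝ) * Real.exp (-γ j * x)) (S := (J h : Set (BallAlgebra n)))
    (fun f hf => by
      have := J_bound h hf j (ev_norm f) (s := (x:ℂ)) (by simpa using hx)
      rw [Complex.ofReal_re] at this
      refine this.trans (le_of_eq (by ring))) hf
  refine h1.trans ?_
  have h2 : Real.exp (-γ j * x) ≤ Real.exp (-(γ j - ε) * x) := by
    apply Real.exp_le_exp.mpr; nlinarith
  calc (j.factorial * 4 ^ j : ℝ) * Real.exp (-γ j * x) * ‖f‖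
      = ((j.factorial * 4 ^ j : ℝ) * ‖f‖) * Real.exp (-γ j * x) := by ring
    _ ≤ _ := by
      apply mul_le_mul_of_nonneg_left h2
      have : 0 ≤ ‖f‖ := norm_nonneg (f.1 : C(closedBall (0 : E n) 1, ℂ))
      positivity

/-! ### The ring of bounded holomorphic functions and the ideal of decaying ones -/

/-- bounded holomorphic functions -/
def S0 : Subring (ℂ → ℂ) where
  carrier := {g | DifferentiableOn ℂ g U ∧ ∃ M : ℝ, ∀ s : ℂ, 0 ≤ s.re → ‖g s‖ ≤ M}
  mul_mem' := by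
    rintro f g ⟨hf, M, hM⟩ ⟨hg, M', hM'⟩
    refine ⟨hf.mul hg, M * M', fun s hs => ?_⟩
    have hM0 : 0 ≤ M := (norm_nonneg _).trans (hM s hs)
    simp only [Pi.mul_apply, norm_mul]
    exact mul_le_mul (hM s hs) (hM' s hs) (norm_nonneg _) hM0
  add_mem' := by
    rintro f g ⟨hf, M, hM⟩ ⟨hg, M', hM'⟩
    refine ⟨hf.add hg, M + M', fun s hs => ?_⟩
    simp only [Pi.add_apply]
    exact (norm_add_le _ _).trans (add_le_add (hM s hs) (hM' s hs))
  zero_mem' := ⟨differentiableOn_const _, 0, fun s _ => by simp⟩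
  one_mem' := ⟨differentiableOn_const _, 1, fun s _ => by simp⟩
  neg_mem' := by
    rintro f ⟨hf, M, hM⟩
    exact ⟨hf.neg, M, fun s hs => by simpa using hM s hs⟩

/-- the ideal of decaying functions -/
def Adec (δ : ℝ) : Ideal S0 where
  carrier := {g | Dec g.1 δ}
  add_mem' := by
    intro f g hf hg
    exact hf.add hg
  zero_mem' := Dec.zero δ
  smul_mem' := by
    intro g f hf
    obtain ⟨M, hM⟩ := g.2.2
    exact Dec.bdd_mul (fun x hx => hM x (by simpa using hx)) hf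

lemma mem_Adec {δ : ℝ} (g : S0) : g ∈ Adec δ ↔ Dec g.1 δ := Iff.rfl

lemma Adec_ne_top {δ : ℝ} (hδ : 0 < δ) : Adec δ ≠ ⊤ := by
  intro h
  have : (1 : S0) ∈ Adec δ := by rw [h]; trivial
  exact not_dec_one hδ this

/-- the functional attached to a tuple of coefficients -/
def L {N : ℕ} (i0 i1 : Fin n) (c : Fin N → S0) (r : BallAlgebra n) (s : ℂ) : ℂ :=
  ∑ j : Fin N, (c j).1 s * (cexp ((γ j : ℝ) * s) * D i0 i1 j r s)

lemma normalized_mem {i0 i1 : Fin n} (h : i0 ≠ i1) {r : BallAlgebra n} (hr : r ∈ J h) (j : ℕ) :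
    (fun s => cexp ((γ j : ℝ) * s) * D i0 i1 j r s) ∈ S0 := by
  refine ⟨DifferentiableOn.mul (by fun_prop) (D_diff h j r),
    (j.factorial * 4 ^ j : ℝ) * ‖r‖, fun s hs => ?_⟩
  rw [norm_mul, Complex.norm_exp]
  have h1 : (((γ j : ℝ) : ℂ) * s).re = γ j * s.re := by simp
  rw [h1]
  calc Real.exp (γ j * s.re) * ‖D i0 i1 j r s‖
      ≤ Real.exp (γ j * s.re) * (((j.factorial * 4 ^ j : ℝ) * ‖r‖) * Real.exp (-γ j * s.re)) := by
        gcongr
        exact J_bound h hr j (ev_norm r) hs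
    _ = ((j.factorial * 4 ^ j : ℝ) * ‖r‖) * (Real.exp (γ j * s.re) * Real.exp (-γ j * s.re)) := by
        ring
    _ = _ := by
        have h0 : γ j * s.re + -γ j * s.re = 0 := by ring
        rw [← Real.exp_add, h0, Real.exp_zero, mul_one]

lemma L_diff {N : ℕ} {i0 i1 : Fin n} (h : i0 ≠ i1) (c : Fin N → S0) {r : BallAlgebra n} :
    DifferentiableOn ℂ (L i0 i1 c r) U := by
  unfold L
  apply DifferentiableOn.fun_sum
  intro j _
  exact (c j).2.1.mul (DifferentiableOn.mul (by fun_prop) (D_diff h j r))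

lemma L_bound {N : ℕ} {i0 i1 : Fin n} (h : i0 ≠ i1) (c : Fin N → S0) :
    ∃ K : ℝ, ∀ r ∈ J h, ∀ s : ℂ, 0 ≤ s.re → ‖L i0 i1 c r s‖ ≤ K * ‖r‖ := by
  choose M hM using fun j => (c j).2.2
  refine ⟨∑ j : Fin N, M j * ((j : ℕ).factorial * 4 ^ (j:ℕ) : ℝ), fun r hr s hs => ?_⟩
  unfold L
  rw [Finset.sum_mul]
  apply norm_sum_le_of_le
  intro j _
  rw [norm_mul, mul_assoc]
  have hM0 : 0 ≤ M j := (norm_nonneg _).trans (hM j s hs)
  apply mul_le_mul (hM j s hs) _ (norm_nonneg _) hM0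
  rw [norm_mul, Complex.norm_exp]
  have h1 : (((γ j : ℝ) : ℂ) * s).re = γ j * s.re := by simp
  rw [h1]
  calc Real.exp (γ j * s.re) * ‖D i0 i1 j r s‖
      ≤ Real.exp (γ j * s.re) *
        ((((j:ℕ).factorial * 4 ^ (j:ℕ) : ℝ) * ‖r‖) * Real.exp (-γ j * s.re)) := by
        gcongr
        exact J_bound h hr j (ev_norm r) hs
    _ = (((j:ℕ).factorial * 4 ^ (j:ℕ) : ℝ) * ‖r‖) *
        (Real.exp (γ j * s.re) * Real.exp (-γ j * s.re)) := by
        ring
    _ = _ := by
        have h0 : γ j * s.re + -γ j * s.re = 0 := by ring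
        rw [← Real.exp_add, h0, Real.exp_zero, mul_one]

/-- The ideal of elements of `J` killed by the functional modulo decaying functions. -/
def T {N : ℕ} {i0 i1 : Fin n} (h : i0 ≠ i1) (c : Fin N → S0) : Ideal (BallAlgebra n) where
  carrier := {r | r ∈ J h ∧ Dec (L i0 i1 c r) (1 / ((N:ℝ) + 1) ^ 2)}
  add_mem' := by
    rintro f g ⟨hf, hf'⟩ ⟨hg, hg'⟩
    refine ⟨(J h).add_mem hf hg, (hf'.add hg').congr (fun x hx => ?_)⟩
    unfold L
    rw [← Finset.sum_add_distrib]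
    apply Finset.sum_congr rfl
    intro j _
    rw [D_add h j f g (real_mem_U hx)]
    ring
  zero_mem' := by
    refine ⟨(J h).zero_mem, (Dec.zero _).congr (fun x hx => ?_)⟩
    unfold L
    apply Finset.sum_eq_zero
    intro j _
    rw [D_zero]
    ring
  smul_mem' := by
    rintro g r ⟨hr, hr'⟩
    refine ⟨(J h).mul_mem_left g hr, ?_⟩
    obtain ⟨M, hM⟩ : ∃ M : ℝ, ∀ x, ‖ev g x‖ ≤ M := ⟨‖g‖, ev_norm g⟩
    have h1 : Dec (fun s => D i0 i1 0 g s * L i0 i1 c r s) (1 / ((N:ℝ) + 1) ^ 2) :=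
      Dec.bdd_mul (fun x hx => D_bound h 0 g (real_mem_U hx) hM) hr'
    have h2 : Dec (fun s => ∑ j : Fin N, ∑ i ∈ Finset.range (j:ℕ),
        ((c j).1 s * (((j:ℕ).choose (i + 1) : ℂ) * D i0 i1 (i + 1) g s)) *
          (cexp ((γ j : ℝ) * s) * D i0 i1 ((j:ℕ) - (i + 1)) r s)) (1 / ((N:ℝ) + 1) ^ 2) := by
      apply Dec.sum
      intro j _
      apply Dec.sum
      intro i hi
      obtain ⟨M', hM'⟩ := (c j).2.2
      have hM'0 : 0 ≤ M' := (norm_nonneg _).trans (hM' 0 (by simp))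
      apply Dec.bdd_mul
        (M := M' * (((j:ℕ).choose (i+1) : ℝ) * (((i+1).factorial * 4 ^ (i+1) : ℝ) * M)))
      · intro x hx
        rw [norm_mul, norm_mul]
        apply mul_le_mul (hM' x (by simpa using hx)) _ (by positivity) hM'0
        gcongr
        · simp
        · exact D_bound h (i+1) g (real_mem_U hx) hM
      · have := (hr ((j:ℕ) - (i+1))).exp_mul (γ j)
        apply this.mono
        have hi' := Finset.mem_range.mp hi
        exact γ_gap (by omega) j.2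
    refine (h1.add h2).congr (fun x hx => ?_)
    unfold L
    rw [Finset.mul_sum, ← Finset.sum_add_distrib]
    apply Finset.sum_congr rfl
    intro j _
    rw [smul_eq_mul, D_mul h j g r (real_mem_U hx), Finset.sum_range_succ']
    simp only [Nat.choose_zero_right, Nat.cast_one, one_mul, Nat.sub_zero, mul_add, Finset.mul_sum]
    rw [add_comm]
    congr 1
    · ring
    · apply Finset.sum_congr rfl
      intro i _
      ring

lemma L_sub {N : ℕ} {i0 i1 : Fin n} (h : i0 ≠ i1) (c : Fin N → S0) (f g : BallAlgebra n) {s : ℂ}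
    (hs : s ∈ U) : L i0 i1 c (f - g) s = L i0 i1 c f s - L i0 i1 c g s := by
  unfold L
  rw [← Finset.sum_sub_distrib]
  apply Finset.sum_congr rfl
  intro j _
  rw [D_sub h j f g hs]
  ring

lemma L_bound' {N : ℕ} {i0 i1 : Fin n} (h : i0 ≠ i1) (c : Fin N → S0) {x : ℝ} (hx : 0 ≤ x) :
    ∃ C : ℝ, ∀ r : BallAlgebra n, ‖L i0 i1 c r x‖ ≤ C * ‖r‖ := by
  refine ⟨∑ j : Fin N, ‖(c j).1 x‖ * (‖cexp ((γ j : ℝ) * x)‖ * ((j : ℕ).factorial * 4 ^ (j:ℕ) : ℝ)),
    fun r => ?_⟩
  unfold L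
  rw [Finset.sum_mul]
  apply norm_sum_le_of_le
  intro j _
  rw [norm_mul, norm_mul, mul_assoc, mul_assoc]
  gcongr
  exact D_bound h j r (real_mem_U hx) (ev_norm r)

lemma mem_T {N : ℕ} {i0 i1 : Fin n} (h : i0 ≠ i1) (c : Fin N → S0) (r : BallAlgebra n) :
    r ∈ T h c ↔ (r ∈ J h ∧ Dec (L i0 i1 c r) (1 / ((N:ℝ) + 1) ^ 2)) := Iff.rfl

lemma T_pl {N : ℕ} {i0 i1 : Fin n} (h : i0 ≠ i1) (c : Fin N → S0) {K : ℝ}
    (hK : ∀ r ∈ J h, ∀ s : ℂ, 0 ≤ s.re → ‖L i0 i1 c r s‖ ≤ K * ‖r‖)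
    {f : BallAlgebra n} (hf : f ∈ T h c) {x : ℝ} (hx : 0 ≤ x) :
    ‖L i0 i1 c f x‖ ≤ (K * Real.exp (-(1 / ((N:ℝ) + 1) ^ 2) * x)) * ‖f‖ := by
  rw [mem_T] at hf
  have := PL (L_diff h c) (hK f hf.1) hf.2 (x:ℂ) (by simpa using hx)
  rw [Complex.ofReal_re] at this
  refine this.trans (le_of_eq ?_)
  ring

lemma T_closure {N : ℕ} {i0 i1 : Fin n} (h : i0 ≠ i1) (c : Fin N → S0) {r : BallAlgebra n}
    (hr : r ∈ closure (T h c : Set (BallAlgebra n))) :
    Dec (L i0 i1 c r) (1 / ((N:ℝ) + 1) ^ 2) := by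
  obtain ⟨K, hK⟩ := L_bound h c
  have hbd : ∀ x : ℝ, 0 ≤ x →
      ‖L i0 i1 c r x‖ ≤ (K * Real.exp (-(1 / ((N:ℝ) + 1) ^ 2) * x)) * ‖r‖ := by
    intro x hx
    obtain ⟨C, hC⟩ := L_bound' h c hx
    exact closure_bound' (Λ := fun f : BallAlgebra n => L i0 i1 c f x)
      (fun f g => L_sub h c f g (real_mem_U hx)) hC (fun f hf => T_pl h c hK hf hx) hr
  have hnn : 0 ≤ K * ‖r‖ := by
    have := (norm_nonneg _).trans (hbd 0 le_rfl)
    simp only [mul_zero, Real.exp_zero, mul_one] at this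
    exact this
  generalize ‖r‖ = R at hbd hnn
  intro ε hε
  refine ⟨K * R, fun x hx => (hbd x hx).trans ?_⟩
  have h2 : Real.exp (-(1 / ((N:ℝ) + 1) ^ 2) * x) ≤ Real.exp (-(1 / ((N:ℝ) + 1) ^ 2 - ε) * x) := by
    apply Real.exp_le_exp.mpr
    nlinarith
  calc (K * Real.exp (-(1 / ((N:ℝ) + 1) ^ 2) * x)) * R
      = (K * R) * Real.exp (-(1 / ((N:ℝ) + 1) ^ 2) * x) := by ring
    _ ≤ _ := mul_le_mul_of_nonneg_left h2 hnn

/-! ### Test elements -/

/-- one variable building block `(1 - z) exp(-2γ z/(1-z))` -/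
def q (k : ℕ) (z : ℂ) : ℂ := (1 - z) * cexp (-(γ k : ℝ) * (2 * z / (1 - z)))

lemma q_bound (k : ℕ) {z : ℂ} (hz : ‖z‖ ≤ 1) : ‖q k z‖ ≤ ‖1 - z‖ * Real.exp (γ k) := by
  by_cases h1 : z = 1
  · simp [q, h1]
  have hne : 1 - z ≠ 0 := fun h => h1 (by linear_combination -h)
  unfold q
  rw [norm_mul, Complex.norm_exp]
  gcongr
  have h2 : 2 * z / (1 - z) = (1 + z) / (1 - z) - 1 := by field_simp; ring
  have h3 : 0 ≤ ((1 + z) / (1 - z)).re := by
    rw [Complex.div_re]
    have h4 : z.re ^ 2 + z.im ^ 2 ≤ 1 := by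
      have := Complex.sq_norm z
      rw [Complex.normSq_apply] at this
      nlinarith [norm_nonneg z]
    have h5 : 0 < Complex.normSq (1 - z) := Complex.normSq_pos.mpr hne
    rw [← add_div]
    apply div_nonneg _ h5.le
    simp
    nlinarith
  have h6 : (-(γ k : ℝ) * (2 * z / (1 - z)) : ℂ).re = -γ k * (2 * z / (1 - z)).re := by
    have : (-(γ k : ℝ) : ℂ) = ((-(γ k) : ℝ) : ℂ) := by push_cast; rfl
    rw [this, Complex.re_ofReal_mul]
  rw [h6, h2, Complex.sub_re, Complex.one_re]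
  nlinarith [γ_pos k, mul_nonneg (γ_pos k).le h3]

lemma q_diff (k : ℕ) : DifferentiableOn ℂ (q k) (ball 0 1) := by
  intro z hz
  have hne : 1 - z ≠ 0 := by
    intro h
    have : z = 1 := by linear_combination -h
    rw [this] at hz
    simp at hz
  apply DifferentiableAt.differentiableWithinAt
  unfold q
  fun_prop (disch := assumption)

lemma q_cont (k : ℕ) : ContinuousOn (q k) (closedBall 0 1) := by
  intro z hz
  by_cases h1 : z = 1
  · have h0 : q k z = 0 := by simp [q, h1]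
    unfold ContinuousWithinAt
    rw [h0]
    apply squeeze_zero_norm' (a := fun z => ‖1 - z‖ * Real.exp (γ k))
    · filter_upwards [self_mem_nhdsWithin] with w hw
      exact q_bound k (by simpa using hw)
    · apply Tendsto.mono_left _ nhdsWithin_le_nhds
      have : Continuous fun z : ℂ => ‖1 - z‖ * Real.exp (γ k) := by fun_prop
      have := this.tendsto z
      rw [h1] at this ⊢
      simpa using this
  · have hne : 1 - z ≠ 0 := fun h => h1 (by linear_combination -h)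
    apply ContinuousAt.continuousWithinAt
    unfold q
    fun_prop (disch := assumption)

lemma coord_le {i : Fin n} (p : E n) : ‖p i‖ ≤ ‖p‖ := PiLp.norm_apply_le p i

/-- the test elements -/
def tst (i0 i1 : Fin n) (k : ℕ) : BallAlgebra n :=
  ⟨⟨fun p => (p.1 i1) ^ k * q k (p.1 i0), by
    apply Continuous.mul
    · fun_prop
    · apply (q_cont k).comp_continuous (by fun_prop)
      intro p
      rw [mem_closedBall_zero_iff]
      exact (coord_le _).trans (mem_closedBall_zero_iff.mp p.2)⟩,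
    ⟨fun p => (p i1) ^ k * q k (p i0), by
      apply DifferentiableOn.mul
      · apply DifferentiableOn.pow
        exact (EuclideanSpace.proj i1 : E n →L[ℂ] ℂ).differentiable.differentiableOn
      · apply (q_diff k).comp
          (EuclideanSpace.proj i0 : E n →L[ℂ] ℂ).differentiable.differentiableOn
        intro p hp
        rw [mem_ball_zero_iff] at hp ⊢
        exact (coord_le _).trans_lt hp, fun x => rfl⟩⟩

lemma q_slice (k : ℕ) {s : ℂ} (hs : s ∈ U) :
    q k (s / (s + 2)) = (2 / (s + 2)) * cexp (-(γ k : ℝ) * s) := by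
  have hne := s_add_two_ne hs
  have h1 : 1 - s / (s + 2) = 2 / (s + 2) := by field_simp; ring
  unfold q
  rw [h1]
  congr 3
  field_simp

lemma D_tst {i0 i1 : Fin n} (h : i0 ≠ i1) (j k : ℕ) {s : ℂ} (hs : s ∈ U) :
    D i0 i1 j (tst i0 i1 k) s =
      (2 / (s + 2)) ^ (k + 1) * cexp (-(γ k : ℝ) * s) * (if j = k then (k.factorial : ℂ) else 0) := by
  unfold D
  have h1 : (fun v => ev (tst i0 i1 k) (P i0 i1 s v)) =ᶠ[𝓝 0]
      fun v => ((2 / (s + 2)) ^ (k + 1) * cexp (-(γ k : ℝ) * s)) * v ^ k := by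
    filter_upwards [ball_mem_nhds (0:ℂ) (by norm_num : (0:ℝ) < 1/2)] with v hv
    have hmem : P i0 i1 s v ∈ closedBall (0 : E n) 1 :=
      ball_subset_closedBall (P_mem h hs (by simpa using hv))
    have h2 : ev (tst i0 i1 k) (P i0 i1 s v) = (P i0 i1 s v i1) ^ k * q k (P i0 i1 s v i0) := by
      unfold ev
      rw [dif_pos hmem]
      rfl
    rw [h2, P_one_coord h, P_zero_coord h, q_slice k hs]
    rw [mul_pow, pow_succ]
    ring
  rw [h1.iteratedDeriv_eq, iteratedDeriv_const_mul_field, iteratedDeriv_fun_pow_zero]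
  split_ifs <;> simp

lemma tst_mem {i0 i1 : Fin n} (h : i0 ≠ i1) (k : ℕ) : tst i0 i1 k ∈ J h := by
  intro j
  by_cases hjk : j = k
  · subst hjk
    intro ε hε
    refine ⟨(j.factorial : ℝ), fun x hx => ?_⟩
    rw [D_tst h j j (real_mem_U hx), if_pos rfl, norm_mul, norm_mul, norm_pow, Complex.norm_exp,
      norm_div]
    have h2 : ‖(x:ℂ) + 2‖ = x + 2 := by
      have : (x:ℂ) + 2 = ((x + 2 : ℝ) : ℂ) := by push_cast; ring
      rw [this, Complex.norm_real, Real.norm_eq_abs, abs_of_nonneg (by linarith)]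
    have h3 : ‖(2:ℂ)‖ = 2 := by simp
    have h4 : (-((γ j : ℝ) : ℂ) * (x:ℂ)).re = -γ j * x := by simp
    have h5 : ‖(j.factorial : ℂ)‖ = j.factorial := by simp
    rw [h2, h3, h4, h5]
    have h6 : (2 / (x + 2)) ^ (j + 1) ≤ 1 := by
      apply pow_le_one₀ (by positivity)
      rw [div_le_one (by linarith)]; linarith
    have h7 : Real.exp (-γ j * x) ≤ Real.exp (-(γ j - ε) * x) := by
      apply Real.exp_le_exp.mpr; nlinarith
    calc (2 / (x + 2)) ^ (j + 1) * Real.exp (-γ j * x) * (j.factorial : ℝ)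
        ≤ 1 * Real.exp (-(γ j - ε) * x) * (j.factorial : ℝ) := by gcongr
      _ = _ := by ring
  · refine (Dec.zero _).congr (fun x hx => ?_)
    rw [D_tst h j k (real_mem_U hx), if_neg hjk, mul_zero]

lemma dec_of_tst {N : ℕ} {i0 i1 : Fin n} (h : i0 ≠ i1) (c : Fin N → S0) (k : Fin N) {δ : ℝ}
    (hd : Dec (L i0 i1 c (tst i0 i1 k)) δ) : Dec (c k).1 δ := by
  apply Dec.of_mul_pow ((k:ℕ) + 1)
  have h1 : Dec (fun s => ((((k:ℕ).factorial : ℂ))⁻¹) * L i0 i1 c (tst i0 i1 k) s) δ :=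
    Dec.bdd_mul (b := fun _ => (((k:ℕ).factorial : ℂ))⁻¹) (fun x _ => le_rfl) hd
  refine h1.congr (fun x hx => ?_)
  have hk : ((k:ℕ).factorial : ℂ) ≠ 0 := by exact_mod_cast (k:ℕ).factorial_ne_zero
  have h2 : L i0 i1 c (tst i0 i1 k) x = (c k).1 x * ((2 / ((x:ℂ) + 2)) ^ ((k:ℕ) + 1) *
      ((k:ℕ).factorial : ℂ)) := by
    unfold L
    rw [Finset.sum_eq_single k]
    · rw [D_tst h _ _ (real_mem_U hx), if_pos rfl]
      have h3 : cexp (((γ k : ℝ) : ℂ) * x) * cexp (-((γ k : ℝ) : ℂ) * x) = 1 := by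
        rw [← Complex.exp_add]
        have : ((γ k : ℝ) : ℂ) * x + -((γ k : ℝ) : ℂ) * x = 0 := by ring
        rw [this, Complex.exp_zero]
      linear_combination ((c k).1 x * ((2 / ((x:ℂ) + 2)) ^ ((k:ℕ) + 1) *
        ((k:ℕ).factorial : ℂ))) * h3
    · intro j _ hjk
      rw [D_tst h _ _ (real_mem_U hx), if_neg (fun h => hjk (Fin.ext h))]
      ring
    · intro hk; exact absurd (Finset.mem_univ k) hk
  rw [h2]
  field_simp

lemma not_fg {i0 i1 : Fin n} (h : i0 ≠ i1) (I : Ideal (BallAlgebra n)) (hI : I.FG) :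
    (J h : Set (BallAlgebra n)) ≠ closure (I : Set (BallAlgebra n)) := by
  intro hJ
  obtain ⟨m, f, hf⟩ := Submodule.fg_iff_exists_fin_generating_family.mp hI
  have hfJ : ∀ i, f i ∈ J h := by
    intro i
    have : f i ∈ (J h : Set (BallAlgebra n)) := by
      rw [hJ]
      apply subset_closure
      rw [← hf]
      exact Submodule.subset_span ⟨i, rfl⟩
    exact this
  have hδ : 0 < 1 / (((m + 1 : ℕ) : ℝ) + 1) ^ 2 := by positivity
  haveI : Nontrivial (S0 ⧸ Adec (1 / (((m + 1 : ℕ) : ℝ) + 1) ^ 2)) :=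
    Ideal.Quotient.nontrivial_iff.mpr (Adec_ne_top hδ)
  let u : Fin m → Fin (m + 1) → S0 := fun i j =>
    ⟨fun s => cexp ((γ j : ℝ) * s) * D i0 i1 j (f i) s, normalized_mem h (hfJ i) j⟩
  let M : Matrix (Fin m) (Fin (m + 1)) (S0 ⧸ Adec (1 / (((m + 1 : ℕ) : ℝ) + 1) ^ 2)) :=
    fun i j => Ideal.Quotient.mk _ (u i j)
  have hninj : ¬ Function.Injective M.mulVecLin := by
    intro hinj
    have := le_of_fin_injective (S0 ⧸ Adec (1 / (((m + 1 : ℕ) : ℝ) + 1) ^ 2)) M.mulVecLin hinj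
    omega
  obtain ⟨c, hc, hc0⟩ : ∃ c, M.mulVecLin c = 0 ∧ c ≠ 0 := by
    by_contra hcon
    apply hninj
    rw [← LinearMap.ker_eq_bot, LinearMap.ker_eq_bot']
    intro c hc
    by_contra hc0
    exact hcon ⟨c, hc, hc0⟩
  choose c' hc' using fun j => Ideal.Quotient.mk_surjective (c j)
  have hgen : ∀ i, f i ∈ T h c' := by
    intro i
    rw [mem_T]
    refine ⟨hfJ i, ?_⟩
    have h1 : (∑ j, c' j * u i j) ∈ Adec (1 / (((m + 1 : ℕ) : ℝ) + 1) ^ 2) := by
      rw [← Ideal.Quotient.eq_zero_iff_mem, map_sum]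
      have := congrFun hc i
      simp only [Matrix.mulVecLin_apply, Matrix.mulVec, dotProduct, Pi.zero_apply] at this
      rw [← this]
      apply Finset.sum_congr rfl
      intro j _
      rw [map_mul, hc' j]
      exact mul_comm _ _
    rw [mem_Adec] at h1
    refine h1.congr (fun x _ => ?_)
    unfold L
    rw [AddSubmonoidClass.coe_finsetSum, Finset.sum_apply]
    rfl
  have hIT : I ≤ T h c' := by
    rw [← hf, Submodule.span_le]
    rintro _ ⟨i, rfl⟩
    exact hgen i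
  have hall : ∀ k : Fin (m + 1), Dec (L i0 i1 c' (tst i0 i1 k)) (1 / (((m + 1 : ℕ) : ℝ) + 1) ^ 2) := by
    intro k
    apply T_closure h c'
    have : tst i0 i1 k ∈ (J h : Set (BallAlgebra n)) := tst_mem h k
    rw [hJ] at this
    exact closure_mono hIT this
  apply hc0
  ext k
  rw [← hc' k]
  exact Ideal.Quotient.eq_zero_iff_mem.mpr (dec_of_tst h c' k (hall k))

lemma zeroSet {i0 i1 : Fin n} (h : i0 ≠ i1) (ζ : closedBall (0 : E n) 1)
    (hζ : (ζ : E n) = EuclideanSpace.single i0 1) :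
    {w : closedBall (0 : E n) 1 | ∀ f ∈ J h, (f : C(closedBall (0 : E n) 1, ℂ)) w = 0} = {ζ} := by
  ext w
  simp only [Set.mem_ofPred_eq, mem_singleton_iff]
  constructor
  · intro hw
    have h0 := hw (tst i0 i1 0) (tst_mem h 0)
    have h1 : q 0 (w.1 i0) = 0 := by
      have : (w.1 i1) ^ 0 * q 0 (w.1 i0) = 0 := h0
      simpa using this
    have h2 : 1 - w.1 i0 = 0 := by
      unfold q at h1
      rcases mul_eq_zero.mp h1 with h | h
      · exact h
      · exact absurd h (Complex.exp_ne_zero _)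
    have h3 : w.1 i0 = 1 := by linear_combination -h2
    apply Subtype.ext
    rw [hζ]
    have h4 : ‖w.1 - EuclideanSpace.single i0 (1:ℂ)‖ ^ 2 ≤ 0 := by
      rw [@norm_sub_sq ℂ, EuclideanSpace.inner_single_right, h3]
      have h5 : ‖w.1‖ ≤ 1 := mem_closedBall_zero_iff.mp w.2
      simp
      nlinarith [norm_nonneg w.1]
    have h5 : ‖w.1 - EuclideanSpace.single i0 (1:ℂ)‖ = 0 := by
      nlinarith [norm_nonneg (w.1 - EuclideanSpace.single i0 (1:ℂ))]
    exact sub_eq_zero.mp (norm_eq_zero.mp h5)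
  · rintro rfl f hf
    have hmem : ∀ k : ℕ, P i0 i1 ((k:ℝ):ℂ) 0 ∈ closedBall (0 : E n) 1 := fun k =>
      ball_subset_closedBall (P_mem h (real_mem_U (Nat.cast_nonneg k)) (by simp))
    have hlim : Tendsto (fun k : ℕ => (⟨P i0 i1 ((k:ℝ):ℂ) 0, hmem k⟩ : closedBall (0 : E n) 1))
        atTop (𝓝 w) := by
      rw [tendsto_subtype_rng]
      simp only [hζ, P, mul_zero, zero_smul, add_zero]
      have h1 : Tendsto (fun k : ℕ => (((k:ℝ) / ((k:ℝ) + 2) : ℝ) : ℂ)) atTop (𝓝 ((1:ℝ):ℂ)) := by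
        apply (Complex.continuous_ofReal.tendsto 1).comp
        have h2 : Tendsto (fun k : ℕ => 1 - 2 / ((k:ℝ) + 2)) atTop (𝓝 (1 - 0)) := by
          apply Tendsto.const_sub
          apply Tendsto.const_div_atTop
          exact tendsto_atTop_add_const_right _ _ tendsto_natCast_atTop_atTop
        rw [sub_zero] at h2
        refine h2.congr (fun k => ?_)
        have : (k:ℝ) + 2 ≠ 0 := by positivity
        field_simp
        ring
      have h3 := h1.smul_const (EuclideanSpace.single i0 (1:ℂ) : E n)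
      simp only [Complex.ofReal_one, one_smul] at h3
      refine h3.congr (fun k => ?_)
      push_cast
      rfl
    have hlim2 := (f.1.continuous.tendsto w).comp hlim
    have hlim3 : Tendsto (fun k : ℕ => (f.1 ⟨P i0 i1 ((k:ℝ):ℂ) 0, hmem k⟩)) atTop (𝓝 0) := by
      obtain ⟨C, hC⟩ := hf 0 (γ 0 / 2) (by have := γ_pos 0; positivity)
      apply squeeze_zero_norm (a := fun k : ℕ => C * Real.exp (-(γ 0 - γ 0 / 2) * (k:ℝ)))
      · intro k
        have h1 := hC (k:ℝ) (Nat.cast_nonneg k)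
        have h2 : D i0 i1 0 f ((k:ℝ):ℂ) = f.1 ⟨P i0 i1 ((k:ℝ):ℂ) 0, hmem k⟩ := by
          unfold D
          rw [iteratedDeriv_zero]
          unfold ev
          rw [dif_pos (hmem k)]
        rw [← h2]
        exact h1
      · have : Tendsto (fun k : ℕ => C * Real.exp (-(γ 0 - γ 0 / 2) * (k:ℝ))) atTop (𝓝 (C * 0)) := by
          apply Tendsto.const_mul
          apply Real.tendsto_exp_atBot.comp
          apply Tendsto.const_mul_atTop_of_neg _ tendsto_natCast_atTop_atTop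
          have := γ_pos 0
          linarith
        simpa using this
    exact tendsto_nhds_unique hlim2 hlim3

end

/-- abstract form of the result -/
lemma main_abstract (n : ℕ) (hn : 2 ≤ n) :
    ∃ ζ : CB n, ‖(ζ : E n)‖ = 1 ∧
      ∃ J : Ideal (BallAlgebra n),
        IsClosed (J : Set (BallAlgebra n)) ∧
        {w : CB n | ∀ f ∈ J, (f : C(CB n, ℂ)) w = 0} = {ζ} ∧
        ∀ I : Ideal (BallAlgebra n), I.FG →
          (J : Set (BallAlgebra n)) ≠ closure (I : Set (BallAlgebra n)) := by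
  have h : (⟨0, by omega⟩ : Fin n) ≠ ⟨1, by omega⟩ := by
    intro h
    simp at h
  have hnorm : ‖(EuclideanSpace.single (⟨0, by omega⟩ : Fin n) (1:ℂ) : E n)‖ = 1 := by simp
  refine ⟨⟨EuclideanSpace.single (⟨0, by omega⟩ : Fin n) (1:ℂ), ?_⟩, hnorm, J h, J_closed h,
    zeroSet h _ rfl, fun I hI => not_fg h I hI⟩
  rw [mem_closedBall_zero_iff, hnorm]

/-- The ball algebra `A(B)`, as a set of continuous functions on the closed unit ball: those which
are holomorphic in the open unit ball. -/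
def ballAlg (n : ℕ) : Set C(CB n, ℂ) := {f | IsBallHol n f}

/-- `J` is closed under addition. -/
def AddClosed {n : ℕ} (J : Set C(CB n, ℂ)) : Prop := ∀ f ∈ J, ∀ g ∈ J, f + g ∈ J

/-- `J` is closed under multiplication by elements of the ball algebra. -/
def MulClosed {n : ℕ} (J : Set C(CB n, ℂ)) : Prop := ∀ g ∈ ballAlg n, ∀ f ∈ J, g * f ∈ J

/-- `J` is an ideal of the ball algebra. -/
def IsIdealOfBallAlg {n : ℕ} (J : Set C(CB n, ℂ)) : Prop :=
  J ⊆ ballAlg n ∧ J.Nonempty ∧ AddClosed J ∧ MulClosed J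

/-- The closure of `S` in `A(B)` for the supremum norm (the norm of `C(CB n, ℂ)`). -/
def closureInBallAlg {n : ℕ} (S : Set C(CB n, ℂ)) : Set C(CB n, ℂ) := closure S ∩ ballAlg n

/-- The ideal `{g₁ f₁ + ⋯ + gₖ fₖ : gᵢ ∈ A(B)}`. -/
def generated {n k : ℕ} (f : Fin k → C(CB n, ℂ)) : Set C(CB n, ℂ) :=
  {h | ∃ g : Fin k → C(CB n, ℂ), (∀ i, g i ∈ ballAlg n) ∧ h = ∑ i, g i * f i}

/-- The common zero set in the closed ball. -/
def zeroSetOf {n : ℕ} (J : Set C(CB n, ℂ)) : Set (CB n) := {w | ∀ f ∈ J, f w = 0}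

lemma closure_val {n : ℕ} (I : Set (BallAlgebra n)) :
    closureInBallAlg (Subtype.val '' I) = Subtype.val '' (closure I) := by
  ext f
  constructor
  · rintro ⟨h1, h2⟩
    refine ⟨⟨f, h2⟩, ?_, rfl⟩
    rw [closure_subtype]
    exact h1
  · rintro ⟨g, hg, rfl⟩
    rw [closure_subtype] at hg
    exact ⟨hg, g.2⟩

/-- **Result.** For every `n ≥ 2` there are a point `ζ` of the unit sphere of `ℂ^n` and a closed
ideal `J` of the ball algebra whose zero set is exactly `{ζ}` and which is not the norm closure of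
any finitely generated ideal. -/
theorem result (n : ℕ) (hn : 2 ≤ n) :
    ∃ ζ : CB n, ‖(ζ : E n)‖ = 1 ∧
      ∃ J : Set C(CB n, ℂ), IsIdealOfBallAlg J ∧ closureInBallAlg J = J ∧ zeroSetOf J = {ζ} ∧
        ∀ (k : ℕ) (f : Fin k → C(CB n, ℂ)), (∀ i, f i ∈ ballAlg n) →
          J ≠ closureInBallAlg (generated f) := by
  obtain ⟨ζ, hζ, J, hJc, hJz, hJfg⟩ := main_abstract n hn
  refine ⟨ζ, hζ, Subtype.val '' (J : Set (BallAlgebra n)), ?_, ?_, ?_, ?_⟩
  · refine ⟨?_, ⟨0, 0, J.zero_mem, rfl⟩, ?_, ?_⟩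
    · rintro _ ⟨f, _, rfl⟩
      exact f.2
    · rintro _ ⟨f, hf, rfl⟩ _ ⟨g, hg, rfl⟩
      exact ⟨f + g, J.add_mem hf hg, rfl⟩
    · rintro g hg _ ⟨f, hf, rfl⟩
      exact ⟨⟨g, hg⟩ * f, J.mul_mem_left _ hf, rfl⟩
  · rw [closure_val, hJc.closure_eq]
  · rw [← hJz]
    ext w
    constructor
    · intro hw f hf
      exact hw f.1 ⟨f, hf, rfl⟩
    · rintro hw _ ⟨f, hf, rfl⟩
      exact hw f hf
  · intro k f hf hJ
    have hgen : generated f =
        Subtype.val '' (Ideal.span (Set.range fun i => (⟨f i, hf i⟩ : BallAlgebra n)) :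
          Set (BallAlgebra n)) := by
      ext h
      constructor
      · rintro ⟨g, hg, rfl⟩
        refine ⟨∑ i, (⟨g i, hg i⟩ : BallAlgebra n) * ⟨f i, hf i⟩, ?_, ?_⟩
        · apply Ideal.sum_mem
          intro i _
          exact Ideal.mul_mem_left _ _ (Ideal.subset_span ⟨i, rfl⟩)
        · rw [AddSubmonoidClass.coe_finsetSum]
          rfl
      · rintro ⟨h, hh, rfl⟩
        obtain ⟨g, hg⟩ := Ideal.mem_span_range_iff_exists_fun.mp hh
        refine ⟨fun i => (g i).1, fun i => (g i).2, ?_⟩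
        rw [← hg, AddSubmonoidClass.coe_finsetSum]
        rfl
    rw [hgen, closure_val] at hJ
    have hJ' := Set.image_injective.mpr Subtype.val_injective hJ
    apply hJfg _ _ hJ'
    exact Submodule.fg_span (Set.finite_range _)

end Pool.Agent.Results.MP_d61c0a_an.OnePointIdeal
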